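import Pool.Agent.H413Z.Sel.Gens
import Pool.Agent.H949Z.Hecke.A

/-! Mellin transforms of series `∑ a n * E (t * y n)`. -/

set_option autoImplicit false

namespace Pool.Agent.H520Z.Sel

open MeasureTheory Set Filter Topology Asymptotics

namespace H339

open H413

/-- Term-wise Mellin transform of a series. -/
theorem hasSum_mellin' {F : ℕ → ℝ → ℂ} {G : ℝ → ℂ} {w : ℂ} {m : ℕ → ℂ}
    (hF : ∀ n, HasMellin (F n) w (m n))
    (hs : Summable fun n => ∫ t in Ioi (0 : ℝ), ‖(t : ℂ) ^ (w - 1) • F n t‖)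
    (hG : ∀ t : ℝ, 0 < t → t ≠ 1 → HasSum (fun n => F n t) (G t)) : HasSum m (mellin G w) := by
  have h := hasSum_integral_of_summable_integral_norm
    (μ := volume.restrict (Ioi (0 : ℝ))) (F := fun n t => (t : ℂ) ^ (w - 1) • F n t)
    (fun n => (hF n).1) hs
  have e1 : m = fun n => ∫ t in Ioi (0 : ℝ), (t : ℂ) ^ (w - 1) • F n t := by
    funext n
    exact (hF n).2.symm
  have e2 : mellin G w = ∫ t in Ioi (0 : ℝ), ∑' n, (t : ℂ) ^ (w - 1) • F n t := by
    unfold mellin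
    refine setIntegral_congr_ae measurableSet_Ioi ?_
    filter_upwards [compl_mem_ae_iff.2 (measure_singleton (1 : ℝ))] with t ht1 ht
    exact ((hG t ht ht1).const_smul _).tsum_eq.symm
  rw [e1, e2]
  exact h

/-- The series. -/
noncomputable def ff (E : ℝ → ℝ) (a y : ℕ → ℝ) (t : ℝ) : ℝ := ∑' n, a n * E (t * y n)

section

variable {b c η : ℝ} {E : ℝ → ℝ} {a y : ℕ → ℝ}

theorem pow_le (hη : 0 < η) (hy : ∀ n, a n ≠ 0 → η ≤ y n) {s : ℝ} (hs : c ≤ s) (n : ℕ) :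
    |a n| * y n ^ (-s) ≤ η ^ (c - s) * (|a n| * y n ^ (-c)) := by
  by_cases h : a n = 0
  · simp [h]
  have h1 := hy n h
  have h2 : 0 < y n := hη.trans_le h1
  have h3 : y n ^ (-s) = y n ^ (c - s) * y n ^ (-c) := by
    rw [← Real.rpow_add h2]
    congr 1
    ring
  have h4 : y n ^ (c - s) ≤ η ^ (c - s) :=
    Real.rpow_le_rpow_of_nonpos hη h1 (by linarith)
  rw [h3]
  have h5 : 0 ≤ |a n| * y n ^ (-c) := by positivity
  calc |a n| * (y n ^ (c - s) * y n ^ (-c)) = y n ^ (c - s) * (|a n| * y n ^ (-c)) := by ring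
    _ ≤ _ := mul_le_mul_of_nonneg_right h4 h5

theorem term_le (hη : 0 < η) (hy : ∀ n, a n ≠ 0 → η ≤ y n) {s K : ℝ}
    (hK : ∀ y, 0 < y → y ^ s * |E y| ≤ K) {t : ℝ} (ht : 0 < t) (n : ℕ) :
    |a n * E (t * y n)| ≤ K * t ^ (-s) * (|a n| * y n ^ (-s)) := by
  by_cases h : a n = 0
  · simp [h]
  have h2 : 0 < y n := hη.trans_le (hy n h)
  have h3 := hK _ (mul_pos ht h2)
  have h4 : |E (t * y n)| ≤ K * (t ^ (-s) * y n ^ (-s)) := by
    rw [← Real.mul_rpow ht.le h2.le, Real.rpow_neg (mul_pos ht h2).le, ← div_eq_mul_inv,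
      le_div_iff₀ (by positivity)]
    linarith
  rw [abs_mul]
  calc |a n| * |E (t * y n)| ≤ |a n| * (K * (t ^ (-s) * y n ^ (-s))) :=
        mul_le_mul_of_nonneg_left h4 (abs_nonneg _)
    _ = _ := by ring

theorem K_nonneg {s K : ℝ} (hK : ∀ y, 0 < y → y ^ s * |E y| ≤ K) : 0 ≤ K :=
  le_trans (by positivity) (hK 1 one_pos)

theorem summ_s (hη : 0 < η) (hy : ∀ n, a n ≠ 0 → η ≤ y n)
    (ha : Summable fun n => |a n| * y n ^ (-c)) {s : ℝ} (hs : c ≤ s) :
    Summable fun n => |a n| * y n ^ (-s) := by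
  refine Summable.of_nonneg_of_le (fun n => ?_) (pow_le hη hy hs) (ha.mul_left _)
  by_cases h : a n = 0
  · simp [h]
  have h2 : 0 < y n := hη.trans_le (hy n h)
  positivity

theorem ff_summable (hbc : b < c) (hη : 0 < η)
    (hEb : ∀ b' : ℝ, b < b' → ∃ K : ℝ, ∀ y, 0 < y → y ^ b' * |E y| ≤ K)
    (hy : ∀ n, a n ≠ 0 → η ≤ y n) (ha : Summable fun n => |a n| * y n ^ (-c)) {t : ℝ}
    (ht : 0 < t) : Summable fun n => a n * E (t * y n) := by
  obtain ⟨K, hK⟩ := hEb c hbc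
  exact Summable.of_norm_bounded (ha.mul_left (K * t ^ (-c))) fun n => term_le hη hy hK ht n

theorem ff_bound (hbc : b < c) (hη : 0 < η)
    (hEb : ∀ b' : ℝ, b < b' → ∃ K : ℝ, ∀ y, 0 < y → y ^ b' * |E y| ≤ K)
    (hy : ∀ n, a n ≠ 0 → η ≤ y n) (ha : Summable fun n => |a n| * y n ^ (-c)) {s : ℝ}
    (hs : c ≤ s) : ∃ D : ℝ, ∀ t, 0 < t → |ff E a y t| ≤ D * t ^ (-s) := by
  obtain ⟨K, hK⟩ := hEb s (hbc.trans_le hs)
  refine ⟨K * ∑' n, |a n| * y n ^ (-s), fun t ht => ?_⟩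
  have h := tsum_of_norm_bounded ((summ_s hη hy ha hs).hasSum.mul_left (K * t ^ (-s)))
    (f := fun n => a n * E (t * y n)) fun n => term_le hη hy hK ht n
  rw [Real.norm_eq_abs] at h
  calc _ ≤ _ := h
    _ = _ := by ring

theorem ff_cont (hbc : b < c) (hc : 0 < c) (hη : 0 < η) (hE : ContinuousOn E (Ioi 0))
    (hEb : ∀ b' : ℝ, b < b' → ∃ K : ℝ, ∀ y, 0 < y → y ^ b' * |E y| ≤ K)
    (hy : ∀ n, a n ≠ 0 → η ≤ y n) (ha : Summable fun n => |a n| * y n ^ (-c)) :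
    ContinuousOn (ff E a y) (Ioi 0) := by
  obtain ⟨K, hK⟩ := hEb c hbc
  have hK0 := K_nonneg hK
  intro t ht
  have ht' : 0 < t := ht
  have h1 : ContinuousOn (ff E a y) (Ioi (t / 2)) := by
    refine continuousOn_tsum (fun n => ?_) (ha.mul_left (K * (t / 2) ^ (-c))) fun n x hx => ?_
    · by_cases h : a n = 0
      · simp [h, continuousOn_const]
      have h2 : 0 < y n := hη.trans_le (hy n h)
      refine continuousOn_const.mul (hE.comp (by fun_prop) fun x hx => ?_)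
      have hx' : t / 2 < x := hx
      exact mul_pos (by linarith) h2
    · have hx' : t / 2 < x := hx
      refine (term_le hη hy hK (by linarith) n).trans ?_
      by_cases h : a n = 0
      · simp [h]
      have h2 : 0 < y n := hη.trans_le (hy n h)
      have h3 : x ^ (-c) ≤ (t / 2) ^ (-c) :=
        Real.rpow_le_rpow_of_nonpos (by linarith) hx'.le (by linarith)
      gcongr
  exact (h1.continuousAt (Ioi_mem_nhds (by linarith))).continuousWithinAt

theorem ff_mellin (hbc : b < c) (hη : 0 < η)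
    (hEb : ∀ b' : ℝ, b < b' → ∃ K : ℝ, ∀ y, 0 < y → y ^ b' * |E y| ≤ K) {Ψ : ℂ → ℂ}
    (hΨ : ∀ w : ℂ, b < w.re → HasMellin (fun y => (E y : ℂ)) w (Ψ w))
    (hy : ∀ n, a n ≠ 0 → η ≤ y n) (ha : Summable fun n => |a n| * y n ^ (-c)) {w : ℂ}
    (hw : c < w.re) : HasSum (fun n => (a n : ℂ) * (y n : ℂ) ^ (-w) * Ψ w)
      (mellin (fun t => (ff E a y t : ℂ)) w) := by
  have hΨw := hΨ w (hbc.trans hw)
  refine hasSum_mellin' (F := fun n t => (a n : ℂ) * (E (t * y n) : ℂ)) (fun n => ?_) ?_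
    (fun t ht _ => ?_)
  · by_cases h : a n = 0
    · simp [h, HasMellin, MellinConvergent, mellin]
    have h2 : 0 < y n := hη.trans_le (hy n h)
    have h3 : HasMellin (fun t => (E (t * y n) : ℂ)) w ((y n : ℂ) ^ (-w) * Ψ w) := by
      constructor
      · have := (MellinConvergent.comp_mul_left (f := fun y => (E y : ℂ)) (s := w) h2).2 hΨw.1
        simpa only [mul_comm] using this
      · rw [mellin_comp_mul_right (fun y => (E y : ℂ)) w h2, hΨw.2, smul_eq_mul]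
    rw [mul_assoc]
    exact hm_mul h3 _
  · set J : ℝ := ∫ t in Ioi (0 : ℝ), t ^ (w.re - 1) * |E t| with hJ
    refine ((summ_s hη hy ha hw.le).mul_right J).congr fun n => ?_
    by_cases h : a n = 0
    · simp [h]
    have h2 : 0 < y n := hη.trans_le (hy n h)
    have h3 := integral_comp_mul_right_Ioi (fun t : ℝ => t ^ (w.re - 1) * |E t|) 0 h2
    rw [zero_mul, ← hJ, smul_eq_mul] at h3
    have h4 : ∫ t in Ioi (0 : ℝ), ‖(t : ℂ) ^ (w - 1) • ((a n : ℂ) * (E (t * y n) : ℂ))‖ =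
        ∫ t in Ioi (0 : ℝ), (|a n| * y n ^ (1 - w.re)) *
          ((t * y n) ^ (w.re - 1) * |E (t * y n)|) := by
      refine setIntegral_congr_fun measurableSet_Ioi fun t ht => ?_
      have ht' : (0 : ℝ) < t := ht
      simp only [norm_smul, norm_mul, Complex.norm_real, Real.norm_eq_abs]
      rw [Complex.norm_cpow_eq_rpow_re_of_pos ht', Real.mul_rpow ht'.le h2.le]
      have h5 : y n ^ (1 - w.re) * y n ^ (w.re - 1) = 1 := by
        rw [← Real.rpow_add h2]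
        simp
      simp only [Complex.sub_re, Complex.one_re]
      linear_combination (-(|a n| * t ^ (w.re - 1) * |E (t * y n)|)) * h5
    rw [h4, integral_const_mul, h3, show 1 - w.re = -w.re + 1 by ring, Real.rpow_add h2,
      Real.rpow_one]
    field_simp
  · have := Complex.hasSum_ofReal.2 (ff_summable hbc hη hEb hy ha ht).hasSum
    simpa only [Complex.ofReal_mul, ff] using this

end

/-- The part of `f` on `(1, ∞)`. -/
noncomputable def gg (f : ℝ → ℝ) (t : ℝ) : ℝ := (Ioi (1 : ℝ)).indicator f t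

section

variable {c : ℝ} {f : ℝ → ℝ}

theorem top_bound (hb : ∀ s, c ≤ s → ∃ D : ℝ, ∀ t, 0 < t → |f t| ≤ D * t ^ (-s)) (s : ℝ) :
    (fun t => (f t : ℂ)) =O[atTop] (· ^ (-s)) := by
  obtain ⟨D, hD⟩ := hb (max c s) (le_max_left _ _)
  refine IsBigO.of_bound |D| ?_
  filter_upwards [eventually_ge_atTop 1] with t ht
  have ht0 : 0 < t := by linarith
  rw [Complex.norm_real, Real.norm_eq_abs, Real.norm_eq_abs,
    abs_of_pos (Real.rpow_pos_of_pos ht0 _)]
  refine (hD t ht0).trans ?_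
  have : t ^ (-max c s) ≤ t ^ (-s) :=
    Real.rpow_le_rpow_of_exponent_le ht (neg_le_neg (le_max_right _ _))
  exact mul_le_mul (le_abs_self _) this (by positivity) (abs_nonneg _)

theorem f_conv (hf : ContinuousOn f (Ioi 0))
    (hb : ∀ s, c ≤ s → ∃ D : ℝ, ∀ t, 0 < t → |f t| ≤ D * t ^ (-s)) {w : ℂ} (hw : c < w.re) :
    MellinConvergent (fun t => (f t : ℂ)) w := by
  refine mellinConvergent_of_isBigO_rpow (a := w.re + 1) (b := c)
    ((Complex.continuous_ofReal.comp_continuousOn hf).locallyIntegrableOn measurableSet_Ioi)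
    (top_bound hb _) (by linarith) ?_ hw
  obtain ⟨D, hD⟩ := hb c le_rfl
  refine IsBigO.of_bound D ?_
  filter_upwards [self_mem_nhdsWithin] with t ht
  have ht0 : 0 < t := ht
  rw [Complex.norm_real, Real.norm_eq_abs, Real.norm_eq_abs,
    abs_of_pos (Real.rpow_pos_of_pos ht0 _)]
  exact hD t ht0

theorem gg_loc (hf : ContinuousOn f (Ioi 0)) :
    LocallyIntegrableOn (fun t => (gg f t : ℂ)) (Ioi 0) := by
  have h1 : LocallyIntegrableOn (fun t => (f t : ℂ)) (Ioi 0) :=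
    (Complex.continuous_ofReal.comp_continuousOn hf).locallyIntegrableOn measurableSet_Ioi
  have h2 : (fun t => (gg f t : ℂ)) = (Ioi (1 : ℝ)).indicator fun t => (f t : ℂ) := by
    funext t
    by_cases h : t ∈ Ioi (1 : ℝ) <;> simp [gg, h]
  rw [h2]
  intro x hx
  obtain ⟨s, hs, hi⟩ := h1 x hx
  exact ⟨s, hs, hi.indicator measurableSet_Ioi⟩

theorem gg_top (hb : ∀ s, c ≤ s → ∃ D : ℝ, ∀ t, 0 < t → |f t| ≤ D * t ^ (-s)) (s : ℝ) :
    (fun t => (gg f t : ℂ)) =O[atTop] (· ^ (-s)) := by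
  refine (top_bound hb s).congr' ?_ EventuallyEq.rfl
  filter_upwards [eventually_gt_atTop 1] with t ht
  simp [gg, ht]

theorem gg_bot (s : ℝ) : (fun t => (gg f t : ℂ)) =O[𝓝[>] 0] (· ^ (-s)) := by
  refine (isBigO_zero _ _).congr' ?_ EventuallyEq.rfl
  filter_upwards [Ioo_mem_nhdsGT (zero_lt_one' ℝ)] with t ht
  have : ¬ 1 < t := not_lt.2 ht.2.le
  simp [gg, this]

theorem gg_conv (hf : ContinuousOn f (Ioi 0))
    (hb : ∀ s, c ≤ s → ∃ D : ℝ, ∀ t, 0 < t → |f t| ≤ D * t ^ (-s)) (w : ℂ) :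
    MellinConvergent (fun t => (gg f t : ℂ)) w :=
  mellinConvergent_of_isBigO_rpow (a := w.re + 1) (b := w.re - 1) (gg_loc hf) (gg_top hb _)
    (by linarith) (gg_bot _) (by linarith)

theorem gg_diff (hf : ContinuousOn f (Ioi 0))
    (hb : ∀ s, c ≤ s → ∃ D : ℝ, ∀ t, 0 < t → |f t| ≤ D * t ^ (-s)) :
    Differentiable ℂ (mellin fun t => (gg f t : ℂ)) := fun w =>
  mellin_differentiableAt_of_isBigO_rpow (a := w.re + 1) (b := w.re - 1) (gg_loc hf) (gg_top hb _)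
    (by linarith) (gg_bot _) (by linarith)

theorem gg_bdd (hf : ContinuousOn f (Ioi 0))
    (hb : ∀ s, c ≤ s → ∃ D : ℝ, ∀ t, 0 < t → |f t| ≤ D * t ^ (-s)) (σ : ℝ) :
    ∃ K : ℝ, ∀ w : ℂ, w.re ≤ σ → ‖mellin (fun t => (gg f t : ℂ)) w‖ ≤ K := by
  refine ⟨∫ t in Ioi (0 : ℝ), ‖(t : ℂ) ^ ((σ : ℂ) - 1) • (gg f t : ℂ)‖, fun w hw => ?_⟩
  unfold mellin
  refine norm_integral_le_of_norm_le (gg_conv hf hb σ).norm ?_
  refine (ae_restrict_iff' measurableSet_Ioi).2 (Eventually.of_forall fun t ht => ?_)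
  have ht' : (0 : ℝ) < t := ht
  by_cases h : 1 < t
  · rw [norm_smul, norm_smul, Complex.norm_cpow_eq_rpow_re_of_pos ht',
      Complex.norm_cpow_eq_rpow_re_of_pos ht']
    refine mul_le_mul_of_nonneg_right (Real.rpow_le_rpow_of_exponent_le h.le ?_) (norm_nonneg _)
    simpa using hw
  · simp [gg, h]

theorem gg_inv (hf : ContinuousOn f (Ioi 0))
    (hb : ∀ s, c ≤ s → ∃ D : ℝ, ∀ t, 0 < t → |f t| ≤ D * t ^ (-s)) (k : ℝ) (w : ℂ) :
    HasMellin (fun t : ℝ => (t : ℂ) ^ (-(k : ℂ)) • (gg f t⁻¹ : ℂ)) w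
      (mellin (fun t => (gg f t : ℂ)) (k - w)) := by
  constructor
  · refine MellinConvergent.cpow_smul.2 ?_
    have := (MellinConvergent.comp_rpow (f := fun t => (gg f t : ℂ)) (s := w + -(k : ℂ))
      (a := -1) (by norm_num)).2 (gg_conv hf hb _)
    simpa only [Real.rpow_neg_one] using this
  · rw [mellin_cpow_smul, mellin_comp_inv (fun t => (gg f t : ℂ))]
    congr 1
    ring

end

end H339

end Pool.Agent.H520Z.Sel
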