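import Pool.Agent.H520Z.Sel.Defs4
import Pool.Agent.H339Z.Polar.A

/-! Hecke's correspondence with a prescribed polar part. -/

set_option autoImplicit false

namespace Pool.Agent.H520Z.Sel

open MeasureTheory Set Filter Topology

namespace H339

open H413

/-- The poles. -/
noncomputable def ww (b T : ℝ) (n : ℕ) : ℂ := (b : ℂ) + (T * n : ℝ) * Complex.I

theorem ww_re (b T : ℝ) (n : ℕ) : (ww b T n).re = b := by simp [ww]

theorem ww_im (b T : ℝ) (n : ℕ) : (ww b T n).im = T * n := by simp [ww]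

/-- One term of the polar part on the Mellin side. -/
noncomputable def pol (k : ℝ) (a w : ℂ) : ℂ :=
  (1 / 2) * (1 / (w - a) - 1 / (w - (k - a))) +
    (1 / 2) * (1 / (w - starRingEnd ℂ a) - 1 / (w - (k - starRingEnd ℂ a)))

/-- One term of the polar part, multiplied by `Pz`. -/
noncomputable def dd (k b T : ℝ) (a w : ℂ) : ℂ :=
  (1 / 2) * (dslope (Pz k b T) a w - dslope (Pz k b T) (k - a) w) +
    (1 / 2) * (dslope (Pz k b T) (starRingEnd ℂ a) w -
      dslope (Pz k b T) (k - starRingEnd ℂ a) w)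

theorem hm_sub {f g : ℝ → ℂ} {s m n : ℂ} (hf : HasMellin f s m) (hg : HasMellin g s n) :
    HasMellin (fun t => f t - g t) s (m - n) := by
  have := hasMellin_sub hf.1 hg.1
  rwa [hf.2, hg.2] at this

theorem hm_pol {k b : ℝ} (hb : k / 2 < b) {a w : ℂ} (ha : a.re = b) (hw : b < w.re) :
    HasMellin ((Ioc (0 : ℝ) 1).indicator fun t : ℝ =>
      ((((t : ℂ) ^ (-a) - (t : ℂ) ^ (a - k)).re : ℝ) : ℂ)) w (pol k a w) := by
  have h1 := hasMellin_cpow_Ioc (-a) (s := w) (by simp; linarith)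
  have h2 := hasMellin_cpow_Ioc (a - k) (s := w) (by simp; linarith)
  have h3 := hasMellin_cpow_Ioc (-starRingEnd ℂ a) (s := w) (by simp; linarith)
  have h4 := hasMellin_cpow_Ioc (starRingEnd ℂ a - k) (s := w) (by simp; linarith)
  refine hm_congr (hm_add (hm_mul (hm_sub h1 h2) (1 / 2)) (hm_mul (hm_sub h3 h4) (1 / 2)))
    (fun t ht => ?_) ?_
  · by_cases h : t ∈ Ioc (0 : ℝ) 1
    · simp only [indicator_of_mem h]
      rw [re_eq]
      simp only [map_sub, conj_cpow ht, map_neg, Complex.conj_ofReal]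
    · simp only [indicator_of_notMem h]
      simp
  · unfold pol
    rw [show w + -a = w - a by ring, show w + (a - k) = w - (k - a) by ring,
      show w + -starRingEnd ℂ a = w - starRingEnd ℂ a by ring,
      show w + (starRingEnd ℂ a - k) = w - (k - starRingEnd ℂ a) by ring]

/-- The polar part. -/
noncomputable def RR (k b T : ℝ) (κ : ℕ → ℝ) (t : ℝ) : ℝ :=
  ∑' n : ℕ, κ n * ((t : ℂ) ^ (-ww b T n) - (t : ℂ) ^ (ww b T n - k)).re

theorem re_le (k b T : ℝ) (n : ℕ) {t : ℝ} (ht : 0 < t) :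
    |((t : ℂ) ^ (-ww b T n) - (t : ℂ) ^ (ww b T n - k)).re| ≤ t ^ (-b) + t ^ (b - k) := by
  refine (Complex.abs_re_le_norm _).trans ((norm_sub_le _ _).trans (le_of_eq ?_))
  rw [Complex.norm_cpow_eq_rpow_re_of_pos ht, Complex.norm_cpow_eq_rpow_re_of_pos ht]
  simp [ww_re]

theorem RR_mellin {k b T : ℝ} (hb : k / 2 < b) {κ : ℕ → ℝ} (hκ : Summable fun n => |κ n|)
    {w : ℂ} (hw : b < w.re) : HasSum (fun n => (κ n : ℂ) * pol k (ww b T n) w)
      (mellin ((Ioc (0 : ℝ) 1).indicator fun t : ℝ => (RR k b T κ t : ℂ)) w) := by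
  refine hasSum_mellin' (F := fun n t => (κ n : ℂ) * (Ioc (0 : ℝ) 1).indicator (fun t : ℝ =>
      ((((t : ℂ) ^ (-ww b T n) - (t : ℂ) ^ (ww b T n - k)).re : ℝ) : ℂ)) t)
    (fun n => hm_mul (hm_pol hb (ww_re b T n) hw) _) ?_ (fun t ht _ => ?_)
  · have h1 := (hasMellin_cpow_Ioc (-(b : ℂ)) (s := w) (by simp; linarith)).1.norm
    have h2 := (hasMellin_cpow_Ioc ((b : ℂ) - k) (s := w) (by simp; linarith)).1.norm
    have h3 := h1.add h2
    refine Summable.of_nonneg_of_le (fun n => integral_nonneg fun t => norm_nonneg _)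
      (fun n => ?_) (hκ.mul_right (∫ t in Ioi (0 : ℝ),
        (‖(t : ℂ) ^ (w - 1) • (Ioc (0 : ℝ) 1).indicator (fun t : ℝ => (t : ℂ) ^ (-(b : ℂ))) t‖ +
        ‖(t : ℂ) ^ (w - 1) • (Ioc (0 : ℝ) 1).indicator (fun t : ℝ => (t : ℂ) ^ ((b : ℂ) - k)) t‖)))
    rw [← integral_const_mul]
    refine setIntegral_mono_on (hm_mul (hm_pol hb (ww_re b T n) hw) (κ n : ℂ)).1.norm
      (h3.const_mul _) measurableSet_Ioi fun t ht => ?_
    have ht' : (0 : ℝ) < t := ht
    by_cases h : t ∈ Ioc (0 : ℝ) 1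
    · simp only [indicator_of_mem h, norm_smul, norm_mul, Complex.norm_real, Real.norm_eq_abs]
      rw [Complex.norm_cpow_eq_rpow_re_of_pos ht' (-(b : ℂ)),
        Complex.norm_cpow_eq_rpow_re_of_pos ht' ((b : ℂ) - k)]
      simp only [Complex.neg_re, Complex.sub_re, Complex.ofReal_re]
      have h4 := re_le k b T n ht'
      simp only [Complex.sub_re] at h4
      have h5 := mul_le_mul_of_nonneg_left h4
        (mul_nonneg (norm_nonneg ((t : ℂ) ^ (w - 1))) (abs_nonneg (κ n)))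
      linarith
    · simp only [indicator_of_notMem h]
      simp
  · by_cases h : t ∈ Ioc (0 : ℝ) 1
    · simp only [indicator_of_mem h]
      have h1 : Summable fun n : ℕ =>
          κ n * ((t : ℂ) ^ (-ww b T n) - (t : ℂ) ^ (ww b T n - k)).re := by
        refine Summable.of_norm_bounded (hκ.mul_right (t ^ (-b) + t ^ (b - k))) fun n => ?_
        rw [Real.norm_eq_abs, abs_mul]
        exact mul_le_mul_of_nonneg_left (re_le k b T n ht) (abs_nonneg _)
      have := Complex.hasSum_ofReal.2 h1.hasSum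
      simpa only [Complex.ofReal_mul, RR] using this
    · simp only [indicator_of_notMem h, mul_zero]
      exact hasSum_zero

theorem split {c k : ℝ} {f R : ℝ → ℝ} (hf : ContinuousOn f (Ioi 0))
    (hb : ∀ s, c ≤ s → ∃ D : ℝ, ∀ t, 0 < t → |f t| ≤ D * t ^ (-s))
    (hFE : ∀ t, 0 < t → f t - t ^ (-k) * f t⁻¹ = R t) {w : ℂ} (hw : c < w.re) :
    mellin (fun t => (f t : ℂ)) w = mellin (fun t => (gg f t : ℂ)) w +
      mellin (fun t => (gg f t : ℂ)) (k - w) +
      mellin ((Ioc (0 : ℝ) 1).indicator fun t : ℝ => (R t : ℂ)) w := by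
  have h := (hm_sub (hm_sub ⟨f_conv hf hb hw, rfl⟩ ⟨gg_conv hf hb w, rfl⟩) (gg_inv hf hb k w)).2
  have h2 : mellin ((Ioc (0 : ℝ) 1).indicator fun t : ℝ => (R t : ℂ)) w =
      mellin (fun t : ℝ => (f t : ℂ) - (gg f t : ℂ) - (t : ℂ) ^ (-(k : ℂ)) • (gg f t⁻¹ : ℂ)) w := by
    unfold mellin
    refine setIntegral_congr_ae measurableSet_Ioi ?_
    filter_upwards [compl_mem_ae_iff.2 (measure_singleton (1 : ℝ))] with t ht1 ht
    have ht0 : (0 : ℝ) < t := ht
    have ht1 : t ≠ 1 := ht1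
    congr 1
    rcases lt_or_gt_of_ne ht1 with h | h
    · have e1 : t ∉ Ioi (1 : ℝ) := fun h' => lt_asymm h h'
      have e2 : t⁻¹ ∈ Ioi (1 : ℝ) := one_lt_inv₀ ht0 |>.2 h
      have e3 : t ∈ Ioc (0 : ℝ) 1 := ⟨ht0, h.le⟩
      simp only [gg, indicator_of_notMem e1, indicator_of_mem e2, indicator_of_mem e3,
        smul_eq_mul, ← hFE t ht0]
      push_cast
      rw [Complex.ofReal_cpow ht0.le]
      push_cast
      ring
    · have e1 : t ∈ Ioi (1 : ℝ) := h
      have e2 : t⁻¹ ∉ Ioi (1 : ℝ) := fun h' => lt_asymm h ((one_lt_inv₀ ht0).1 h')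
      have e3 : t ∉ Ioc (0 : ℝ) 1 := fun h' => absurd h (not_lt.2 h'.2)
      simp only [gg, indicator_of_notMem e2, indicator_of_mem e1, indicator_of_notMem e3]
      simp
  rw [h2, h]
  ring

theorem Pz_symm (k b T : ℝ) (w : ℂ) : Pz k b T (k - w) = Pz k b T w := by
  unfold Pz
  rw [show (Real.pi : ℂ) * (k - w - b) / T = -(Real.pi * (w - k + b) / T) by ring,
    show (Real.pi : ℂ) * (k - w - k + b) / T = -(Real.pi * (w - b) / T) by ring,
    Complex.sinh_neg, Complex.sinh_neg]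
  ring

theorem Pz_conj (k b T : ℝ) (w : ℂ) :
    Pz k b T (starRingEnd ℂ w) = starRingEnd ℂ (Pz k b T w) := by
  rw [← Pz_symm, Pz_refl]

theorem Pd_symm (k T : ℝ) (w : ℂ) : Pd k T (k - w) = -Pd k T w := by
  unfold Pd
  rw [show 2 * ((Real.pi : ℂ) * (k - w - (k / 2 : ℝ)) / T) =
      -(2 * (Real.pi * (w - (k / 2 : ℝ)) / T)) by push_cast; ring, Complex.sinh_neg]
  ring

theorem ds_symm (k b T : ℝ) (a w : ℂ) :
    dslope (Pz k b T) a (k - w) = -dslope (Pz k b T) (k - a) w := by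
  by_cases h : w = k - a
  · have h2 : (k : ℂ) - w = a := by
      rw [h]
      simp
    rw [h2, h, ds_same, ds_same, Pd_symm]
    simp
  · have h2 : (k : ℂ) - w ≠ a := by
      intro h2
      apply h
      rw [← h2]
      simp
    rw [dslope_of_ne _ h, dslope_of_ne _ h2, slope_def_field, slope_def_field, Pz_symm, Pz_symm,
      show w - (k - a) = -(k - w - a) by ring, div_neg, neg_neg]

theorem ds_conj (k b T : ℝ) (a w : ℂ) : dslope (Pz k b T) a (starRingEnd ℂ w) =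
    starRingEnd ℂ (dslope (Pz k b T) (starRingEnd ℂ a) w) := by
  have h := ds_refl k b T (k - a) w
  rw [ds_symm, sub_sub_cancel, neg_inj] at h
  rw [h]
  simp

theorem dd_diff (k b T : ℝ) (a : ℂ) : Differentiable ℂ (dd k b T a) :=
  (((ds_diff k b T _).sub (ds_diff k b T _)).const_mul _).add
    (((ds_diff k b T _).sub (ds_diff k b T _)).const_mul _)

theorem dd_symm (k b T : ℝ) (a w : ℂ) : dd k b T a (k - w) = dd k b T a w := by
  unfold dd
  simp only [ds_symm, sub_sub_cancel]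
  ring

theorem dd_conj (k b T : ℝ) (a w : ℂ) :
    dd k b T a (starRingEnd ℂ w) = starRingEnd ℂ (dd k b T a w) := by
  unfold dd
  simp only [ds_conj, map_add, map_mul, map_sub, Complex.conj_conj, Complex.conj_ofReal,
    map_div₀, map_one, map_ofNat]
  ring

theorem dd_bdd (k b M : ℝ) {T : ℝ} (hT : 0 < T) : ∃ K : ℝ, ∀ a w : ℂ, a.re = b → |w.re| ≤ M →
    ‖dd k b T a w‖ ≤ K := by
  obtain ⟨K, hK⟩ := ds_bdd k b (|M| + |b| + |k - b|) hT
  refine ⟨‖(1 / 2 : ℂ)‖ * (K + K) + ‖(1 / 2 : ℂ)‖ * (K + K), fun a w ha hw => ?_⟩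
  have p1 := abs_nonneg M
  have p2 := abs_nonneg b
  have p3 := abs_nonneg (k - b)
  have h3 : |w.re| ≤ |M| + |b| + |k - b| := by linarith [le_abs_self M]
  have b1 := hK a w (by rw [ha]; linarith) h3
  have b2 := hK (k - a) w (by simp only [Complex.sub_re, Complex.ofReal_re, ha]; linarith) h3
  have b3 := hK (starRingEnd ℂ a) w (by rw [Complex.conj_re, ha]; linarith) h3
  have b4 := hK (k - starRingEnd ℂ a) w
    (by simp only [Complex.sub_re, Complex.ofReal_re, Complex.conj_re, ha]; linarith) h3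
  unfold dd
  refine (norm_add_le _ _).trans (add_le_add ?_ ?_)
  · rw [norm_mul]
    gcongr
    exact (norm_sub_le _ _).trans (add_le_add b1 b2)
  · rw [norm_mul]
    gcongr
    exact (norm_sub_le _ _).trans (add_le_add b3 b4)

theorem Pz_ww (k b : ℝ) {T : ℝ} (hT : 0 < T) (n : ℕ) : Pz k b T (ww b T n) = 0 := by
  have := Pz_zero k b hT (n : ℤ)
  unfold ww
  simpa using this

theorem ne_of_re {w a : ℂ} (h : a.re < w.re) : w ≠ a := by
  intro h'
  rw [h'] at h
  exact lt_irrefl _ h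

theorem dd_eq {k b T : ℝ} (hb : k / 2 < b) {a w : ℂ} (ha : a.re = b) (hz : Pz k b T a = 0)
    (hw : b < w.re) : dd k b T a w = Pz k b T w * pol k a w := by
  have z2 : Pz k b T (k - a) = 0 := by rw [Pz_symm, hz]
  have z3 : Pz k b T (starRingEnd ℂ a) = 0 := by rw [Pz_conj, hz, map_zero]
  have z4 : Pz k b T (k - starRingEnd ℂ a) = 0 := by rw [Pz_symm, z3]
  unfold dd pol
  rw [ds_ne hz (ne_of_re (by linarith)), ds_ne z2 (ne_of_re (by simp; linarith)),
    ds_ne z3 (ne_of_re (by simp; linarith)), ds_ne z4 (ne_of_re (by simp; linarith))]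
  ring

theorem dd_val {k b T : ℝ} (hT : 0 < T) (hb : k / 2 < b) (n : ℕ) {m : ℕ} (hm : 1 ≤ m) :
    dd k b T (ww b T n) (ww b T m) =
      if n = m then ((Real.pi / T * Real.sinh (Real.pi * (2 * b - k) / T) / 2 : ℝ) : ℂ) else 0 := by
  have hz := Pz_ww k b hT n
  have zw := Pz_ww k b hT m
  have z2 : Pz k b T (k - ww b T n) = 0 := by rw [Pz_symm, hz]
  have z3 : Pz k b T (starRingEnd ℂ (ww b T n)) = 0 := by rw [Pz_conj, hz, map_zero]
  have z4 : Pz k b T (k - starRingEnd ℂ (ww b T n)) = 0 := by rw [Pz_symm, z3]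
  have n3 : ww b T m ≠ starRingEnd ℂ (ww b T n) := by
    intro h
    have h1 := congrArg Complex.im h
    rw [Complex.conj_im, ww_im, ww_im] at h1
    have hm' : (1 : ℝ) ≤ m := by exact_mod_cast hm
    have hn' : (0 : ℝ) ≤ n := n.cast_nonneg
    nlinarith
  unfold dd
  rw [ds_ne z2 (ne_of_re (by simp [ww_re]; linarith)), ds_ne z3 n3,
    ds_ne z4 (ne_of_re (by simp [ww_re]; linarith)), zw]
  split_ifs with hmn
  · rw [hmn, ds_same]
    unfold ww
    rw [Pd_val k b hT m]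
    push_cast
    ring
  · have : ww b T m ≠ ww b T n := by
      intro h
      have h1 := congrArg Complex.im h
      rw [ww_im, ww_im] at h1
      exact hmn (by exact_mod_cast (mul_left_cancel₀ hT.ne' h1).symm)
    rw [ds_ne hz this, zw]
    simp

end H339

open H339 H413 in
theorem hecke_polar (k b T c η : ℝ) (hT : 0 < T) (hb : k / 2 < b) (hbc : b < c) (hc : 0 < c)
    (hη : 0 < η) (E : ℝ → ℝ) (hE : ContinuousOn E (Ioi 0))
    (hEb : ∀ b' : ℝ, b < b' → ∃ K : ℝ, ∀ y, 0 < y → y ^ b' * |E y| ≤ K) (Ψ : ℂ → ℂ)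
    (hΨ : ∀ w : ℂ, b < w.re → HasMellin (fun y => (E y : ℂ)) w (Ψ w))
    (a y κ : ℕ → ℝ) (hy : ∀ n, a n ≠ 0 → η ≤ y n) (ha : Summable fun n => |a n| * y n ^ (-c))
    (hκ : Summable fun n => |κ n|) (hκ0 : κ 0 = 0)
    (hFE : ∀ t : ℝ, 0 < t → HasSum (fun n => a n * (E (t * y n) - t ^ (-k) * E (y n / t)))
      (∑' n : ℕ, κ n * ((t : ℂ) ^ (-((b : ℂ) + (T * n : ℝ) * Complex.I)) -
        (t : ℂ) ^ (((b : ℂ) + (T * n : ℝ) * Complex.I) - k)).re)) :
    ∃ Λ : ℂ → ℂ, Differentiable ℂ Λ ∧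
      (∀ σ₁ σ₂ : ℝ, ∃ K : ℝ, ∀ w : ℂ, σ₁ ≤ w.re → w.re ≤ σ₂ → ‖Λ w‖ ≤ K) ∧
      (∀ w : ℂ, Λ ((k : ℂ) - w) = Λ w) ∧
      (∀ w : ℂ, Λ (starRingEnd ℂ w) = starRingEnd ℂ (Λ w)) ∧
      (∀ w : ℂ, c < w.re →
        HasSum (fun n => (a n : ℂ) * (y n : ℂ) ^ (-w) * (Pz k b T w * Ψ w)) (Λ w)) ∧
      ∀ n : ℕ, 1 ≤ n → Λ ((b : ℂ) + (T * n : ℝ) * Complex.I) =
        ((κ n * (Real.pi / T * Real.sinh (Real.pi * (2 * b - k) / T) / 2) : ℝ) : ℂ) := by
  have _ := hκ0
  have hf := ff_cont hbc hc hη hE hEb hy ha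
  have hfb : ∀ s, c ≤ s → ∃ D : ℝ, ∀ t, 0 < t → |ff E a y t| ≤ D * t ^ (-s) :=
    fun s hs => ff_bound hbc hη hEb hy ha hs
  have hFE' : ∀ t, 0 < t → ff E a y t - t ^ (-k) * ff E a y t⁻¹ = RR k b T κ t := by
    intro t ht
    have h1 := (ff_summable hbc hη hEb hy ha ht).hasSum
    have h2 := ((ff_summable hbc hη hEb hy ha (inv_pos.2 ht)).hasSum).mul_left (t ^ (-k))
    refine (h1.sub h2).unique ?_
    have e : (fun n => a n * E (t * y n) - t ^ (-k) * (a n * E (t⁻¹ * y n))) =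
        fun n => a n * (E (t * y n) - t ^ (-k) * E (y n / t)) := by
      funext n
      rw [show y n / t = t⁻¹ * y n by ring]
      ring
    rw [e]
    exact hFE t ht
  obtain ⟨I, hI⟩ : ∃ I : ℂ → ℂ, I = mellin fun t => (gg (ff E a y) t : ℂ) := ⟨_, rfl⟩
  have hId : Differentiable ℂ I := hI ▸ gg_diff hf hfb
  have hbd : ∀ M : ℝ, ∃ K : ℝ, ∀ (n : ℕ) (w : ℂ), |w.re| ≤ M →
      ‖(κ n : ℂ) * dd k b T (ww b T n) w‖ ≤ |κ n| * K := by
    intro M
    obtain ⟨K, hK⟩ := dd_bdd k b M hT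
    refine ⟨K, fun n w hw => ?_⟩
    rw [norm_mul, Complex.norm_real, Real.norm_eq_abs]
    exact mul_le_mul_of_nonneg_left (hK _ w (ww_re b T n) hw) (abs_nonneg _)
  refine ⟨fun w => Pz k b T w * (I w + I (k - w)) + ∑' n, (κ n : ℂ) * dd k b T (ww b T n) w,
    ?_, fun σ₁ σ₂ => ?_, fun w => ?_, fun w => ?_, fun w hw => ?_, fun m hm => ?_⟩
  · refine ((diff_Pz k b T).mul (hId.add (hId.comp (by fun_prop)))).add fun w => ?_
    obtain ⟨K, hK⟩ := hbd (|w.re| + 1)
    have hU : IsOpen {z : ℂ | |z.re| < |w.re| + 1} :=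
      isOpen_lt (by fun_prop) continuous_const
    have h := Complex.differentiableOn_tsum_of_summable_norm (hκ.mul_right K)
      (F := fun n z => (κ n : ℂ) * dd k b T (ww b T n) z)
      (fun n => ((dd_diff k b T _).const_mul _).differentiableOn) hU
      (fun n z hz => hK n z (le_of_lt hz))
    exact h.differentiableAt (hU.mem_nhds (by simp))
  · obtain ⟨K1, h1⟩ := Pz_bdd k b (|σ₁| + |σ₂|) hT
    obtain ⟨K2, h2⟩ := gg_bdd hf hfb σ₂
    obtain ⟨K3, h3⟩ := gg_bdd hf hfb (k - σ₁)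
    obtain ⟨K4, h4⟩ := hbd (|σ₁| + |σ₂|)
    rw [← hI] at h2 h3
    refine ⟨K1 * (K2 + K3) + ∑' n, |κ n| * K4, fun w hw1 hw2 => ?_⟩
    have hw : |w.re| ≤ |σ₁| + |σ₂| := abs_le.2
      ⟨by linarith [neg_abs_le σ₁, abs_nonneg σ₂], by linarith [le_abs_self σ₂, abs_nonneg σ₁]⟩
    refine (norm_add_le _ _).trans (add_le_add ?_ ?_)
    · rw [norm_mul]
      refine mul_le_mul (h1 w hw) ((norm_add_le _ _).trans (add_le_add (h2 w hw2) (h3 _ ?_)))
        (norm_nonneg _) ((norm_nonneg _).trans (h1 w hw))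
      simp only [Complex.sub_re, Complex.ofReal_re]
      linarith
    · exact tsum_of_norm_bounded (hκ.mul_right K4).hasSum fun n => h4 n w hw
  · simp only [Pz_symm, dd_symm, sub_sub_cancel]
    ring
  · have hc1 : ∀ z, I (starRingEnd ℂ z) = starRingEnd ℂ (I z) := fun z => by
      rw [hI]
      exact Pool.Agent.H949Z.Hecke.mellin_conj _ z
    have hc2 : I (k - starRingEnd ℂ w) = starRingEnd ℂ (I (k - w)) := by
      rw [← hc1]
      simp
    simp only [map_add, map_mul, Complex.conj_tsum, Complex.conj_ofReal, Pz_conj, dd_conj, hc1,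
      hc2]
  · have h1 := (ff_mellin hbc hη hEb hΨ hy ha hw).mul_left (Pz k b T w)
    have h2 := (RR_mellin (T := T) hb hκ (hbc.trans hw)).mul_left (Pz k b T w)
    have h3 : ∑' n, (κ n : ℂ) * dd k b T (ww b T n) w =
        Pz k b T w * mellin ((Ioc (0 : ℝ) 1).indicator fun t : ℝ => (RR k b T κ t : ℂ)) w := by
      rw [← h2.tsum_eq]
      refine tsum_congr fun n => ?_
      rw [dd_eq hb (ww_re b T n) (Pz_ww k b hT n) (hbc.trans hw)]
      ring
    rw [split hf hfb hFE' hw, ← hI] at h1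
    simp only [h3]
    rw [← mul_add]
    have e : (fun n => (a n : ℂ) * (y n : ℂ) ^ (-w) * (Pz k b T w * Ψ w)) =
        fun n => Pz k b T w * ((a n : ℂ) * (y n : ℂ) ^ (-w) * Ψ w) := by
      funext n
      ring
    rw [e]
    exact h1
  · have h1 : Pz k b T ((b : ℂ) + (T * m : ℝ) * Complex.I) = 0 := Pz_ww k b hT m
    have h2 : ∀ n, dd k b T (ww b T n) ((b : ℂ) + (T * m : ℝ) * Complex.I) = _ :=
      fun n => dd_val hT hb n hm
    simp only [h1, h2, zero_mul, zero_add]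
    rw [tsum_eq_single m fun n hn => by simp [hn]]
    simp only [if_true]
    push_cast
    ring

end Pool.Agent.H520Z.Sel
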